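import Pool.Agent.Helper26.PN.Scale

/-!
Growth of infinite subsets of `ℕ`, as points of the Cantor space.
-/

set_option linter.unusedSectionVars false

namespace Pool.Agent.Helper26.PN

open MeasureTheory Set Topology Filter ENNReal

/-- The Cantor space. -/
abbrev S : Type := ℕ → Bool

/-- number of elements of `y` below `n` -/
def cnt (y : S) (n : ℕ) : ℕ := Nat.count (fun i => y i = true) n

theorem cnt_mono (y : S) : Monotone (cnt y) := Nat.count_monotone _

theorem continuous_cnt (n : ℕ) : Continuous fun y : S => cnt y n := by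
  induction n with
  | zero =>
    have : (fun y : S => cnt y 0) = fun _ => 0 := by
      funext y; exact Nat.count_zero _
    rw [this]
    exact continuous_const
  | succ n ih =>
    have : (fun y : S => cnt y (n + 1)) = fun y => cnt y n + if y n = true then 1 else 0 := by
      funext y; exact Nat.count_succ _ n
    rw [this]
    apply ih.add
    exact (continuous_of_discreteTopology (f := fun b : Bool => if b = true then 1 else 0)).comp
      (continuous_apply n)

/-- finite subsets of `ℕ` -/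
def Q : Set S := {y | ∃ N, ∀ n, N ≤ n → y n = false}

theorem Q_countable : Q.Countable := by
  classical
  refine (countable_range (fun s : Finset ℕ => (fun n => decide (n ∈ s) : S))).mono ?_
  rintro y ⟨N, hN⟩
  refine ⟨(Finset.range N).filter fun n => y n = true, ?_⟩
  funext n
  by_cases hn : N ≤ n
  · simp [hN n hn]
  · push Not at hn
    cases h : y n <;> simp [h, hn]

theorem Q_nonempty : Q.Nonempty := ⟨fun _ => false, 0, fun _ _ => rfl⟩

theorem cnt_unbounded {y : S} (hy : y ∉ Q) (k : ℕ) : ∃ n, k < cnt y n := by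
  have hinf : ∀ N, ∃ n, N ≤ n ∧ y n = true := by
    intro N
    by_contra hne
    push Not at hne
    exact hy ⟨N, fun n hn => by
      have := hne n hn
      simpa using this⟩
  induction k with
  | zero =>
    obtain ⟨n, _, hn⟩ := hinf 0
    refine ⟨n + 1, ?_⟩
    have : cnt y (n + 1) = cnt y n + 1 := by
      unfold cnt
      rw [Nat.count_succ, if_pos hn]
    omega
  | succ k ih =>
    obtain ⟨m, hm⟩ := ih
    obtain ⟨n, hmn, hn⟩ := hinf m
    refine ⟨n + 1, ?_⟩
    have h1 : cnt y (n + 1) = cnt y n + 1 := by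
      unfold cnt
      rw [Nat.count_succ, if_pos hn]
    have h2 := cnt_mono y hmn
    omega

open Classical in
/-- the range of `e`, as a point of the Cantor space -/
noncomputable def yy (e : ℕ → ℕ) : S := fun n => decide (n ∈ range e)

theorem cnt_yy {e : ℕ → ℕ} (he : StrictMono e) (k : ℕ) : cnt (yy e) (e k) = k := by
  classical
  unfold cnt
  rw [Nat.count_eq_card_filter_range]
  have : (Finset.range (e k)).filter (fun i => yy e i = true) = (Finset.range k).image e := by
    ext n
    simp only [yy, Finset.mem_filter, Finset.mem_range, decide_eq_true_eq, mem_range,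
      Finset.mem_image]
    constructor
    · rintro ⟨h1, m, rfl⟩
      exact ⟨m, he.lt_iff_lt.1 h1, rfl⟩
    · rintro ⟨m, hm, rfl⟩
      exact ⟨he hm, m, rfl⟩
  rw [this, Finset.card_image_of_injective _ he.injective, Finset.card_range]

theorem yy_notMem_Q {e : ℕ → ℕ} (he : StrictMono e) : yy e ∉ Q := by
  rintro ⟨N, hN⟩
  have h1 : N ≤ e N := he.le_apply
  have h2 := hN (e N) h1
  simp [yy] at h2

/-- pieces of `RR` -/
def RRp (e : ℕ → ℕ) (m : ℕ) : Set S := {y | ∀ k, m ≤ k → cnt y (e k) ≤ k}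

/-- sets growing at least as fast as `e` -/
def RR (e : ℕ → ℕ) : Set S := ⋃ m, RRp e m

theorem RRp_closed (e : ℕ → ℕ) (m : ℕ) : IsClosed (RRp e m) := by
  have : RRp e m = ⋂ k, ⋂ _ : m ≤ k, (fun y : S => cnt y (e k)) ⁻¹' (Iic k) := by
    ext y; simp [RRp]
  rw [this]
  exact isClosed_iInter fun k => isClosed_iInter fun _ => (isClosed_discrete _).preimage
    (continuous_cnt _)

theorem mem_RR {e : ℕ → ℕ} {y : S} : y ∈ RR e ↔ ∀ᶠ k in atTop, cnt y (e k) ≤ k := by
  simp [RR, RRp, eventually_atTop]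

theorem yy_mem_RR {e e' : ℕ → ℕ} (he' : StrictMono e') (h : LEs e e') : yy e' ∈ RR e := by
  rw [mem_RR]
  filter_upwards [h] with k hk
  calc cnt (yy e') (e k) ≤ cnt (yy e') (e' k) := cnt_mono _ hk
    _ = k := cnt_yy he' k

theorem lt_of_lt_cnt {e : ℕ → ℕ} (he : StrictMono e) {k n : ℕ} (h : k < cnt (yy e) n) :
    e k < n := by
  by_contra hle
  push Not at hle
  have := cnt_mono (yy e) hle
  rw [cnt_yy he] at this
  omega

/-- (3a) for compact sets -/
theorem compact_bounded {C : Set S} (hC : IsClosed C) (hCQ : Disjoint C Q) :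
    ∃ h : ℕ → ℕ, ∀ y ∈ C, ∀ k, k < cnt y (h k) := by
  have h1 : ∀ k, ∃ n, ∀ y ∈ C, k < cnt y n := by
    intro k
    obtain ⟨n, hn⟩ := hC.isCompact.elim_directed_cover (fun n => {y : S | k < cnt y n})
      (fun n => isOpen_Ioi.preimage (continuous_cnt n)) (by
        intro y hy
        obtain ⟨n, hn⟩ := cnt_unbounded (disjoint_left.1 hCQ hy) k
        exact mem_iUnion.2 ⟨n, hn⟩) (by
        apply Monotone.directed_le
        intro a b hab y hy
        exact lt_of_lt_of_le hy (cnt_mono y hab))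
    exact ⟨n, fun y hy => hn hy⟩
  choose h hh using h1
  exact ⟨h, fun y hy k => hh k y hy⟩

/-- (3a) -/
theorem fsig_bounded {F : Set S} (hF : IsFsig F) (hFQ : Disjoint F Q) :
    ∃ h : ℕ → ℕ, ∀ y ∈ F, ∀ᶠ k in atTop, k < cnt y (h k) := by
  obtain ⟨C, hC, rfl⟩ := hF
  have h1 : ∀ n, ∃ h : ℕ → ℕ, ∀ y ∈ C n, ∀ k, k < cnt y (h k) := fun n =>
    compact_bounded (hC n) (hFQ.mono_left (subset_iUnion C n))
  choose h hh using h1
  obtain ⟨g, _, hg, _⟩ := exists_dom (countable_range h) (fun _ => 0)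
  refine ⟨g, ?_⟩
  intro y hy
  obtain ⟨n, hn⟩ := mem_iUnion.1 hy
  filter_upwards [hg (h n) ⟨n, rfl⟩] with k hk
  exact lt_of_lt_of_le (hh n y hn k) (cnt_mono y hk)

/-- (3b) -/
theorem measure_bounded (ν : Measure S) [IsFiniteMeasure ν] :
    ∃ h : ℕ → ℕ, ν {y | y ∉ Q ∧ ∃ᶠ k in atTop, cnt y (h k) ≤ k} = 0 := by
  let B : ℕ → ℕ → Set S := fun k n => {y | y ∉ Q ∧ cnt y n ≤ k}
  have hBm : ∀ k n, MeasurableSet (B k n) := by
    intro k n
    apply MeasurableSet.inter
    · exact Q_countable.measurableSet.compl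
    · exact ((isClosed_discrete (Iic k)).preimage (continuous_cnt n)).measurableSet
  have h1 : ∀ k, ∃ n, ν (B k n) < 2⁻¹ ^ k := by
    intro k
    have h2 : Tendsto (fun n => ν (B k n)) atTop (𝓝 (ν (⋂ n, B k n))) := by
      apply tendsto_measure_iInter_atTop (fun n => (hBm k n).nullMeasurableSet)
      · intro a b hab y hy
        exact ⟨hy.1, (cnt_mono y hab).trans hy.2⟩
      · exact ⟨0, measure_ne_top _ _⟩
    have h3 : (⋂ n, B k n) = ∅ := by
      rw [eq_empty_iff_forall_notMem]
      intro y hy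
      rw [mem_iInter] at hy
      obtain ⟨n, hn⟩ := cnt_unbounded (hy 0).1 k
      have := (hy n).2
      omega
    rw [h3, measure_empty] at h2
    have h4 : ∀ᶠ n in atTop, ν (B k n) < 2⁻¹ ^ k :=
      h2.eventually (gt_mem_nhds (ENNReal.pow_pos (by simp) k))
    exact h4.exists
  choose h hh using h1
  refine ⟨h, ?_⟩
  have h5 : {y | y ∉ Q ∧ ∃ᶠ k in atTop, cnt y (h k) ≤ k} ⊆
      {y | ∃ᶠ k in atTop, y ∈ B k (h k)} := by
    rintro y ⟨hy, hy'⟩
    exact hy'.mono fun k hk => ⟨hy, hk⟩
  apply measure_mono_null h5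
  apply measure_setOfPred_frequently_eq_zero
  refine ne_top_of_le_ne_top ?_ (ENNReal.tsum_le_tsum fun i => (hh i).le)
  rw [ENNReal.tsum_geometric]
  norm_num

theorem RR_null (ν : Measure S) [IsFiniteMeasure ν] {h : ℕ → ℕ}
    (hν : ν {y | y ∉ Q ∧ ∃ᶠ k in atTop, cnt y (h k) ≤ k} = 0) {e : ℕ → ℕ} (he : ¬ LEs e h) :
    ν (RR e \ Q) = 0 := by
  apply measure_mono_null _ hν
  rintro y ⟨hy, hyQ⟩
  refine ⟨hyQ, ?_⟩
  rw [mem_RR] at hy
  rw [LEs, not_eventually] at he
  refine (he.and_eventually hy).mono fun k hk => ?_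
  have h1 := hk.1
  push Not at h1
  exact (cnt_mono y h1.le).trans hk.2

end Pool.Agent.Helper26.PN
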