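import Pool.Agent.Helper26.PN.Defs

/-!
Coding of null `G_δ` sets by elements of the Baire space.
-/

set_option linter.unusedSectionVars false

namespace Pool.Agent.Helper26.PN

open MeasureTheory Set Topology Filter ENNReal

section general

variable {X : Type*} [TopologicalSpace X]

theorem IsFsig.of_closed {F : Set X} (h : IsClosed F) : IsFsig F :=
  ⟨fun _ => F, fun _ => h, by simp [iUnion_const]⟩

theorem IsFsig.iUnion {ι : Type*} [Countable ι] {F : ι → Set X} (h : ∀ i, IsFsig (F i)) :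
    IsFsig (⋃ i, F i) := by
  choose K hK hK' using h
  rcases isEmpty_or_nonempty ι with h0 | h0
  · rw [iUnion_of_empty]
    exact IsFsig.of_closed isClosed_empty
  · obtain ⟨f, hf⟩ := exists_surjective_nat (ι × ℕ)
    refine ⟨fun n => K (f n).1 (f n).2, fun n => hK _ _, ?_⟩
    ext x
    simp only [mem_iUnion, hK']
    constructor
    · rintro ⟨i, n, hx⟩
      obtain ⟨m, hm⟩ := hf (i, n)
      exact ⟨m, by rw [hm]; exact hx⟩
    · rintro ⟨m, hx⟩
      exact ⟨_, _, hx⟩

theorem IsFsig.union {F G : Set X} (hF : IsFsig F) (hG : IsFsig G) : IsFsig (F ∪ G) := by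
  rw [union_eq_iUnion]
  exact IsFsig.iUnion (fun b => by cases b <;> assumption)

theorem IsFsig.inter {F G : Set X} (hF : IsFsig F) (hG : IsFsig G) : IsFsig (F ∩ G) := by
  obtain ⟨K, hK, rfl⟩ := hF
  obtain ⟨L, hL, rfl⟩ := hG
  rw [iUnion_inter_iUnion]
  exact IsFsig.iUnion fun i => IsFsig.iUnion fun j => IsFsig.of_closed ((hK i).inter (hL j))

theorem IsFsig.preimage {Y : Type*} [TopologicalSpace Y] {f : Y → X} (hf : Continuous f)
    {F : Set X} (hF : IsFsig F) : IsFsig (f ⁻¹' F) := by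
  obtain ⟨K, hK, rfl⟩ := hF
  rw [preimage_iUnion]
  exact IsFsig.iUnion fun i => IsFsig.of_closed ((hK i).preimage hf)

theorem IsFsig.of_countable [T1Space X] {F : Set X} (hF : F.Countable) : IsFsig F := by
  have : F = ⋃ x : F, {(x : X)} := by
    ext x; simp
  rw [this]
  have : Countable F := hF
  exact IsFsig.iUnion fun x => IsFsig.of_closed isClosed_singleton

theorem IsFsig.measurableSet [MeasurableSpace X] [BorelSpace X] {F : Set X} (hF : IsFsig F) :
    MeasurableSet F := by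
  obtain ⟨K, hK, rfl⟩ := hF
  exact MeasurableSet.iUnion fun n => (hK n).measurableSet

end general

section comeager

/-- If all `J i` are nonempty then comeagerly many `x` satisfy `x i ∈ J i` for infinitely
many `i`. -/
theorem residual_frequently {J : ℕ → Set ℕ} (hJ : ∀ i, (J i).Nonempty) :
    {x : ℕ → ℕ | ∃ᶠ i in atTop, x i ∈ J i} ∈ residual (ℕ → ℕ) := by
  have h1 : {x : ℕ → ℕ | ∃ᶠ i in atTop, x i ∈ J i} =
      ⋂ k : ℕ, {x : ℕ → ℕ | ∃ i, k ≤ i ∧ x i ∈ J i} := by
    ext x
    simp only [mem_ofPred_eq, mem_iInter, frequently_atTop]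
  rw [h1]
  rw [countable_iInter_mem]
  intro k
  apply residual_of_dense_open
  · have : {x : ℕ → ℕ | ∃ i, k ≤ i ∧ x i ∈ J i} =
        ⋃ i : ℕ, ⋃ _ : k ≤ i, (fun x : ℕ → ℕ => x i) ⁻¹' (J i) := by
      ext x; simp
    rw [this]
    exact isOpen_iUnion fun i => isOpen_iUnion fun _ =>
      (isOpen_discrete _).preimage (continuous_apply i)
  · rw [dense_iff_inter_open]
    intro U hU ⟨x, hx⟩
    obtain ⟨I, u, hu, hu'⟩ := isOpen_pi_iff.1 hU x hx
    obtain ⟨i, hi⟩ : ∃ i, k ≤ i ∧ i ∉ I := by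
      refine ⟨max k (I.sup id + 1), le_max_left _ _, fun hmem => ?_⟩
      have h2 : max k (I.sup id + 1) ≤ I.sup id := Finset.le_sup (f := id) hmem
      have h3 : I.sup id + 1 ≤ max k (I.sup id + 1) := le_max_right _ _
      omega
    obtain ⟨j, hj⟩ := hJ i
    refine ⟨Function.update x i j, hu' ?_, i, hi.1, by simpa using hj⟩
    intro l hl
    have : l ≠ i := fun h => hi.2 (h ▸ hl)
    rw [Function.update_of_ne this]
    exact (hu l hl).2

theorem exists_mem_of_not_isMeagre {Y : Type*} [TopologicalSpace Y] {A M : Set Y}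
    (hA : ¬ IsMeagre A) (hM : M ∈ residual Y) : ∃ x ∈ A, x ∈ M := by
  by_contra hne
  push Not at hne
  apply hA
  rw [IsMeagre]
  filter_upwards [hM] with x hx hxA
  exact hne x hxA hx

/-- Sets bounded in the order of eventual domination are meager. -/
theorem isMeagre_bounded (h : ℕ → ℕ) : IsMeagre {x : ℕ → ℕ | ∀ᶠ n in atTop, x n ≤ h n} := by
  rw [IsMeagre]
  have := residual_frequently (J := fun n => {j | h n < j}) (fun n => ⟨h n + 1, by simp⟩)
  filter_upwards [this] with x hx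
  simp only [mem_compl_iff, mem_ofPred_eq, not_eventually, not_le]
  exact hx

end comeager

section coding

variable {T : Type*} [TopologicalSpace T] [SecondCountableTopology T] [T2Space T]
  [CompactSpace T] [MeasurableSpace T] [BorelSpace T]

/-- finite unions of basic open sets of measure less than `2⁻ⁱ` -/
def Wfam (lam : Measure T) (i : ℕ) : Set (Set T) :=
  {W | (∃ s ⊆ TopologicalSpace.countableBasis T, s.Finite ∧ W = ⋃₀ s) ∧ lam W < 2⁻¹ ^ i}

theorem Wfam_countable (lam : Measure T) (i : ℕ) : (Wfam lam i).Countable := by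
  have h1 : {s : Set (Set T) | s.Finite ∧ s ⊆ TopologicalSpace.countableBasis T}.Countable :=
    Set.countable_ofPred_finite_subset (TopologicalSpace.countable_countableBasis T)
  refine (h1.image (fun s => ⋃₀ s)).mono ?_
  rintro W ⟨⟨s, hs, hfin, rfl⟩, _⟩
  exact ⟨s, ⟨hfin, hs⟩, rfl⟩

theorem Wfam_nonempty (lam : Measure T) (i : ℕ) : (Wfam lam i).Nonempty := by
  refine ⟨∅, ⟨∅, empty_subset _, finite_empty, by simp⟩, ?_⟩
  rw [measure_empty]
  exact ENNReal.pow_pos (by simp) i

/-- an enumeration of `Wfam` -/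
noncomputable def W (lam : Measure T) (i : ℕ) : ℕ → Set T :=
  ((Wfam_countable lam i).exists_eq_range (Wfam_nonempty lam i)).choose

theorem range_W (lam : Measure T) (i : ℕ) : Wfam lam i = range (W lam i) :=
  ((Wfam_countable lam i).exists_eq_range (Wfam_nonempty lam i)).choose_spec

theorem W_mem (lam : Measure T) (i j : ℕ) : W lam i j ∈ Wfam lam i := by
  rw [range_W]; exact ⟨j, rfl⟩

theorem W_open (lam : Measure T) (i j : ℕ) : IsOpen (W lam i j) := by
  obtain ⟨⟨s, hs, _, h⟩, _⟩ := W_mem lam i j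
  rw [h]
  exact isOpen_sUnion fun t ht => TopologicalSpace.isOpen_of_mem_countableBasis (hs ht)

theorem W_small (lam : Measure T) (i j : ℕ) : lam (W lam i j) < 2⁻¹ ^ i := (W_mem lam i j).2

theorem exists_W (lam : Measure T) [IsFiniteMeasure lam] {F : Set T} (hF : IsClosed F)
    (h0 : lam F = 0) (i : ℕ) : ∃ j, F ⊆ W lam i j := by
  obtain ⟨U, hFU, hU, hlt⟩ := F.exists_isOpen_lt_of_lt (μ := lam) (2⁻¹ ^ i)
    (by rw [h0]; exact ENNReal.pow_pos (by simp) i)
  have hbasis := TopologicalSpace.isBasis_countableBasis T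
  have hcpt : IsCompact F := hF.isCompact
  -- a finite cover by basic open sets inside `U`
  obtain ⟨s, hs, hfin, hcov, hsub⟩ : ∃ s ⊆ TopologicalSpace.countableBasis T, s.Finite ∧
      F ⊆ ⋃₀ s ∧ ⋃₀ s ⊆ U := by
    have h1 : ∀ x ∈ F, ∃ B ∈ TopologicalSpace.countableBasis T, x ∈ B ∧ B ⊆ U := fun x hx =>
      hbasis.exists_subset_of_mem_open (hFU hx) hU
    choose! B hB hxB hBU using h1
    obtain ⟨t, ht, htF⟩ := hcpt.elim_nhds_subcover B
      (fun x hx => (hbasis.isOpen (hB x hx)).mem_nhds (hxB x hx))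
    refine ⟨B '' t, ?_, t.finite_toSet.image B, ?_, ?_⟩
    · rintro _ ⟨x, hx, rfl⟩
      exact hB x (ht x hx)
    · rw [sUnion_image]
      exact htF
    · rw [sUnion_image]
      exact iUnion₂_subset fun x hx => hBU x (ht x hx)
  have hmem : ⋃₀ s ∈ Wfam lam i := ⟨⟨s, hs, hfin, rfl⟩, (measure_mono hsub).trans_lt hlt⟩
  rw [range_W] at hmem
  obtain ⟨j, hj⟩ := hmem
  exact ⟨j, by rw [hj]; exact hcov⟩

/-- the null `G_δ` set coded by `x` -/
def NN (lam : Measure T) (x : ℕ → ℕ) : Set T := {t | ∃ᶠ i in atTop, t ∈ W lam i (x i)}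

/-- the complement of `NN` -/
def HH (lam : Measure T) (x : ℕ → ℕ) : Set T := {t | ∀ᶠ i in atTop, t ∉ W lam i (x i)}

theorem HH_eq (lam : Measure T) (x : ℕ → ℕ) : HH lam x = (NN lam x)ᶜ := by
  ext t
  simp [HH, NN]

theorem NN_null (lam : Measure T) (x : ℕ → ℕ) : lam (NN lam x) = 0 := by
  apply measure_setOfPred_frequently_eq_zero
  refine ne_top_of_le_ne_top ?_ (ENNReal.tsum_le_tsum fun i => (W_small lam i (x i)).le)
  rw [ENNReal.tsum_geometric]
  norm_num

/-- closed pieces of `HH` -/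
def HHp (lam : Measure T) (x : ℕ → ℕ) (k : ℕ) : Set T :=
  ⋂ i : ℕ, ⋂ _ : k ≤ i, (W lam i (x i))ᶜ

theorem HHp_closed (lam : Measure T) (x : ℕ → ℕ) (k : ℕ) : IsClosed (HHp lam x k) :=
  isClosed_iInter fun i => isClosed_iInter fun _ => (W_open lam i (x i)).isClosed_compl

theorem HH_iUnion (lam : Measure T) (x : ℕ → ℕ) : HH lam x = ⋃ k, HHp lam x k := by
  ext t
  simp only [HH, HHp, mem_ofPred_eq, eventually_atTop, mem_iUnion, mem_iInter, mem_compl_iff]


theorem HH_Fsig (lam : Measure T) (x : ℕ → ℕ) : IsFsig (HH lam x) :=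
  ⟨_, HHp_closed lam x, HH_iUnion lam x⟩

/-- (1a) -/
theorem residual_cover (lam : Measure T) [IsFiniteMeasure lam] {F : Set T} (hF : IsFsig F)
    (h0 : lam F = 0) : {x | F ⊆ NN lam x} ∈ residual (ℕ → ℕ) := by
  obtain ⟨K, hK, rfl⟩ := hF
  have h1 : ∀ n, {x | K n ⊆ NN lam x} ∈ residual (ℕ → ℕ) := by
    intro n
    have h2 : lam (K n) = 0 := measure_mono_null (subset_iUnion K n) h0
    have h3 := residual_frequently (J := fun i => {j | K n ⊆ W lam i j})
      (fun i => exists_W lam (hK n) h2 i)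
    filter_upwards [h3] with x hx t ht
    exact Frequently.mono hx fun i hi => hi ht
  have h4 := countable_iInter_mem.2 h1
  filter_upwards [h4] with x hx
  rw [mem_iInter] at hx
  exact iUnion_subset hx

/-- (1b) -/
theorem residual_meagre (lam : Measure T) [IsFiniteMeasure lam] [NullSingletonClass lam] (P : Set T) :
    {x | IsMeagre ((↑) ⁻¹' (HH lam x) : Set P)} ∈ residual (ℕ → ℕ) := by
  have hbasis := TopologicalSpace.isBasis_countableBasis T
  have h1 : ∀ V ∈ {V ∈ TopologicalSpace.countableBasis T | (V ∩ P).Nonempty},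
      {x : ℕ → ℕ | ∃ᶠ i in atTop, (W lam i (x i) ∩ (V ∩ P)).Nonempty} ∈ residual (ℕ → ℕ) := by
    rintro V ⟨_, p, hpV, hpP⟩
    apply residual_frequently (J := fun i => {j | (W lam i j ∩ (V ∩ P)).Nonempty})
    intro i
    obtain ⟨j, hj⟩ := exists_W lam (isClosed_singleton (x := p)) (measure_singleton p) i
    exact ⟨j, p, hj rfl, hpV, hpP⟩
  have hc : {V ∈ TopologicalSpace.countableBasis T | (V ∩ P).Nonempty}.Countable :=
    (TopologicalSpace.countable_countableBasis T).mono (sep_subset _ _)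
  have h2 := (countable_bInter_mem hc).2 h1
  filter_upwards [h2] with x hx
  rw [mem_iInter₂] at hx
  rw [HH_iUnion, preimage_iUnion]
  apply isMeagre_iUnion
  intro k
  apply IsNowhereDense.isMeagre
  have hcl : IsClosed ((↑) ⁻¹' (HHp lam x k) : Set P) :=
    (HHp_closed lam x k).preimage continuous_subtype_val
  rw [hcl.isNowhereDense_iff, interior_eq_empty_iff_dense_compl, dense_iff_inter_open]
  rintro U hU ⟨p, hp⟩
  obtain ⟨U', hU', rfl⟩ := isOpen_induced_iff.1 hU
  obtain ⟨V, hV, hpV, hVU⟩ := hbasis.exists_subset_of_mem_open (a := (p : T)) hp hU'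
  have h3 := hx V ⟨hV, p, hpV, p.2⟩
  obtain ⟨i, hi, q, hq1, hq2, hq3⟩ := (frequently_atTop.1 h3) k
  refine ⟨⟨q, hq3⟩, hVU hq2, ?_⟩
  intro h4
  have h5 : q ∈ HHp lam x k := h4
  rw [HHp, mem_iInter₂] at h5
  exact h5 i hi hq1

end coding

end Pool.Agent.Helper26.PN
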