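import Mathlib

/-!
Definitions: the classes `UN`, `PN_σ`, `PM_σ` of subsets of a topological space.
-/

namespace Pool.Agent.Helper26.PN

open MeasureTheory Set

/-- `F` is an `F_σ` set: a countable union of closed sets. -/
def IsFsig {X : Type*} [TopologicalSpace X] (F : Set X) : Prop :=
  ∃ K : ℕ → Set X, (∀ n, IsClosed (K n)) ∧ F = ⋃ n, K n

/-- `A` is universally null: it has outer measure zero for every finite Borel measure on `X`
vanishing on singletons. -/
def UN {X : Type*} [MeasurableSpace X] (A : Set X) : Prop :=
  ∀ μ : Measure X, IsFiniteMeasure μ → NullSingletonClass μ → μ A = 0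

/-- `A` is countably perfectly null: for every finite Borel measure `μ` on `X` vanishing on
singletons, `A` is covered by an `F_σ` set of `μ`-measure zero. -/
def PNσ {X : Type*} [TopologicalSpace X] [MeasurableSpace X] (A : Set X) : Prop :=
  ∀ μ : Measure X, IsFiniteMeasure μ → NullSingletonClass μ → ∃ F : Set X, IsFsig F ∧ A ⊆ F ∧ μ F = 0

/-- `A` is countably perfectly meager: for every sequence of perfect sets `P n` there is an `F_σ`
set `F` covering `A` such that `F ∩ P n` is meager in the subspace `P n` for every `n`. -/
def PMσ {X : Type*} [TopologicalSpace X] (A : Set X) : Prop :=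
  ∀ P : ℕ → Set X, (∀ n, Perfect (P n)) →
    ∃ F : Set X, IsFsig F ∧ A ⊆ F ∧ ∀ n, IsMeagre ((↑) ⁻¹' F : Set (P n))

end Pool.Agent.Helper26.PN
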