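import Pool.Agent.Helper26.PN.Cantor

/-!
The construction of a set in `(PM_σ ∩ UN) \ PN_σ` from a nonmeager set of size `≤ ℵ₁`.
-/

set_option linter.unusedSectionVars false

namespace Pool.Agent.Helper26.PN

open MeasureTheory Set Topology Filter ENNReal

theorem exists_lam : ∃ lam : Measure S, IsFiniteMeasure lam ∧ NullSingletonClass lam ∧
    lam univ ≠ 0 := by
  have h1 : ¬ Countable ℝ := not_countable
  have h4 : Cardinal.mk S = Cardinal.continuum := by
    simp [S]
  have h2 : ¬ Countable S := by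
    intro h
    have h3 := Cardinal.mk_le_aleph0_iff.2 h
    rw [h4] at h3
    exact absurd h3 (not_le.2 Cardinal.aleph0_lt_continuum)
  let φ : ℝ ≃ᵐ S := PolishSpace.measurableEquivOfNotCountable h1 h2
  refine ⟨(volume.restrict (Icc (0 : ℝ) 1)).map φ, inferInstance, ⟨fun x => ?_⟩, ?_⟩
  · rw [φ.map_apply]
    apply Set.Subsingleton.measure_zero
    intro a ha b hb
    exact φ.injective ((show φ a = x from ha).trans (show φ b = x from hb).symm)
  · rw [φ.map_apply, preimage_univ, Measure.restrict_apply_univ, Real.volume_Icc]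
    simp

variable {I : Type} [LinearOrder I] [WellFoundedLT I]

theorem exists_Z (lam : Measure S) [IsFiniteMeasure lam] [NullSingletonClass lam]
    (hlam : lam univ ≠ 0) (hI : ∀ a : I, (Iio a).Countable) {x : I → ℕ → ℕ}
    (hx : ¬ IsMeagre (range x)) :
    ∃ z : I → S, (∀ F, IsFsig F → lam F = 0 → ∃ a, z a ∉ F) ∧ PMσ (range z) := by
  have hIic : ∀ a : I, (Iic a).Countable := by
    intro a
    rw [← Iio_insert]
    exact (hI a).insert a
  have h1 : ∀ a, ∃ z : S, ∀ b ≤ a, z ∉ NN lam (x b) := by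
    intro a
    by_contra hne
    push Not at hne
    apply hlam
    have h2 : lam (⋃ b ∈ Iic a, NN lam (x b)) = 0 :=
      (measure_biUnion_null_iff (hIic a)).2 fun b _ => NN_null lam (x b)
    apply measure_mono_null _ h2
    intro t _
    obtain ⟨b, hb, ht⟩ := hne t
    exact mem_biUnion hb ht
  choose z hz using h1
  refine ⟨z, ?_, ?_⟩
  · intro F hF hF0
    obtain ⟨_, ⟨a, rfl⟩, ha⟩ := exists_mem_of_not_isMeagre hx (residual_cover lam hF hF0)
    exact ⟨a, fun h => hz a a le_rfl (ha h)⟩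
  · intro P hP
    have h2 := countable_iInter_mem.2 fun n => residual_meagre lam (P n)
    obtain ⟨_, ⟨a, rfl⟩, ha⟩ := exists_mem_of_not_isMeagre hx h2
    rw [mem_iInter] at ha
    have hc : (z '' Iio a).Countable := (hI a).image z
    refine ⟨HH lam (x a) ∪ z '' Iio a, (HH_Fsig lam _).union (IsFsig.of_countable hc), ?_, ?_⟩
    · rintro _ ⟨b, rfl⟩
      rcases lt_or_ge b a with hba | hba
      · exact Or.inr ⟨b, hba, rfl⟩
      · left
        rw [HH_eq]
        exact hz b a hba
    · intro n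
      rw [preimage_union]
      exact (ha n).union (meagre_countable (hP n) hc)

/-- Some member of the scale is not dominated by `h`. -/
theorem exists_not_LEs (hI : ∀ a : I, (Iio a).Countable) (hIu : ¬ (univ : Set I).Countable)
    {x e : I → ℕ → ℕ} (hx : ¬ IsMeagre (range x)) (he : ∀ a b, b < a → LEs (e b) (e a))
    (hxe : ∀ a n, x a n ≤ e a n) (h : ℕ → ℕ) : ∃ b, ¬ LEs (e b) h := by
  by_contra hne
  push Not at hne
  exact hIu (unbounded_scale hI hx he hxe h fun a _ => hne a)

theorem not_mem_RR {y : S} {h e : ℕ → ℕ} (hy : ∀ k, k < cnt y (h k)) (he : ¬ LEs e h) :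
    y ∉ RR e := by
  intro hmem
  rw [mem_RR] at hmem
  rw [LEs, not_eventually] at he
  obtain ⟨k, hk1, hk2⟩ := (he.and_eventually hmem).exists
  push Not at hk1
  have h1 := cnt_mono y hk1.le
  have h2 := hy k
  omega

/-- the set `A` -/
noncomputable def AA (e : I → ℕ → ℕ) (z : I → S) (g : I → I) : Set (S × S) :=
  range fun a => (yy (e a), z (g a))

theorem AA_UN (hI : ∀ a : I, (Iio a).Countable) (hIu : ¬ (univ : Set I).Countable)
    {x e : I → ℕ → ℕ} (hx : ¬ IsMeagre (range x)) (hmono : ∀ a, StrictMono (e a))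
    (he : ∀ a b, b < a → LEs (e b) (e a)) (hxe : ∀ a n, x a n ≤ e a n) (g : I → I) (z : I → S) :
    UN (AA e z g) := by
  intro μ hμ hμ'
  obtain ⟨h, hh⟩ := measure_bounded (μ.map Prod.fst)
  obtain ⟨b, hb⟩ := exists_not_LEs hI hIu hx he hxe h
  have h1 := RR_null (μ.map Prod.fst) hh hb
  have hRm : MeasurableSet (RR (e b)) := IsFsig.measurableSet ⟨_, RRp_closed (e b), rfl⟩
  have hm : MeasurableSet (RR (e b) \ Q) := hRm.diff Q_countable.measurableSet
  rw [Measure.map_apply measurable_fst hm] at h1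
  have h2 : AA e z g ⊆ (Prod.fst ⁻¹' (RR (e b) \ Q)) ∪
      (fun a => (yy (e a), z (g a))) '' Iio b := by
    rintro _ ⟨a, rfl⟩
    rcases lt_or_ge a b with hab | hab
    · exact Or.inr ⟨a, hab, rfl⟩
    · left
      refine ⟨yy_mem_RR (hmono a) ?_, yy_notMem_Q (hmono a)⟩
      rcases hab.lt_or_eq with h3 | h3
      · exact he a b h3
      · rw [h3]; exact Eventually.of_forall fun _ => le_rfl
  refine measure_mono_null h2 (measure_union_null h1 ?_)
  exact ((hI b).image _).measure_zero μ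

theorem AA_not_PN (hI : ∀ a : I, (Iio a).Countable)
    {x e : I → ℕ → ℕ} (hx : ¬ IsMeagre (range x)) (hmono : ∀ a, StrictMono (e a))
    (he : ∀ a b, b < a → LEs (e b) (e a)) (hxe : ∀ a n, x a n ≤ e a n) {g : I → I}
    (hg : ∀ a, ¬ (g ⁻¹' {a}).Countable) {z : I → S}
    (lam : Measure S) [IsFiniteMeasure lam] [NullSingletonClass lam]
    (hz : ∀ F, IsFsig F → lam F = 0 → ∃ a, z a ∉ F) : ¬ PNσ (AA e z g) := by
  intro hPN
  obtain ⟨q, hq⟩ := Q_countable.exists_eq_range Q_nonempty
  let μ : Measure (S × S) :=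
    Measure.sum fun n => ((2⁻¹ : ℝ≥0∞) ^ n) • ((Measure.dirac (q n)).prod lam)
  have hμ1 : IsFiniteMeasure μ := by
    constructor
    rw [Measure.sum_apply _ MeasurableSet.univ]
    have h1 : ∀ n, (((2⁻¹ : ℝ≥0∞) ^ n) • ((Measure.dirac (q n)).prod lam)) univ =
        (2⁻¹ : ℝ≥0∞) ^ n * lam univ := by
      intro n
      rw [Measure.smul_apply, smul_eq_mul, ← univ_prod_univ, Measure.prod_prod]
      simp
    simp_rw [h1]
    rw [ENNReal.tsum_mul_right, ENNReal.tsum_geometric]
    exact ENNReal.mul_lt_top (by norm_num) (measure_lt_top lam _)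
  have hμ2 : NullSingletonClass μ := by
    constructor
    rintro ⟨s, t⟩
    rw [Measure.sum_apply _ (measurableSet_singleton _)]
    rw [ENNReal.tsum_eq_zero]
    intro n
    have h0 : lam {t} = 0 := measure_singleton t
    rw [Measure.smul_apply, ← singleton_prod_singleton, Measure.prod_prod, h0]
    simp
  obtain ⟨F, hF, hAF, hF0⟩ := hPN μ hμ1 hμ2
  have h1 : ∀ n, lam (Prod.mk (q n) ⁻¹' F) = 0 := by
    intro n
    have h2 : (((2⁻¹ : ℝ≥0∞) ^ n) • ((Measure.dirac (q n)).prod lam)) F = 0 := by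
      rw [Measure.sum_apply _ hF.measurableSet, ENNReal.tsum_eq_zero] at hF0
      exact hF0 n
    rw [Measure.smul_apply, smul_eq_mul, mul_eq_zero] at h2
    rcases h2 with h2 | h2
    · exact absurd h2 (ENNReal.pow_pos (by simp) n).ne'
    · rwa [Measure.dirac_prod, Measure.map_apply measurable_prodMk_left hF.measurableSet] at h2
  have hG : IsFsig (⋃ n, Prod.mk (q n) ⁻¹' F) :=
    IsFsig.iUnion fun n => hF.preimage (Continuous.prodMk_right (q n))
  obtain ⟨ξ, hξ⟩ := hz _ hG (measure_iUnion_null h1)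
  have hY : IsFsig ((fun y : S => (y, z ξ)) ⁻¹' F) := hF.preimage (Continuous.prodMk_left (z ξ))
  have hYQ : Disjoint ((fun y : S => (y, z ξ)) ⁻¹' F) Q := by
    rw [disjoint_left]
    intro y hy hyQ
    rw [hq] at hyQ
    obtain ⟨n, rfl⟩ := hyQ
    exact hξ (mem_iUnion.2 ⟨n, hy⟩)
  obtain ⟨h, hh⟩ := fsig_bounded hY hYQ
  apply hg ξ
  apply unbounded_scale hI hx he hxe h
  intro a ha
  have ha' : g a = ξ := ha
  have h3 : yy (e a) ∈ (fun y : S => (y, z ξ)) ⁻¹' F := by
    apply hAF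
    refine ⟨a, ?_⟩
    change (yy (e a), z (g a)) = (yy (e a), z ξ)
    rw [ha']
  filter_upwards [hh _ h3] with k hk
  exact (lt_of_lt_cnt (hmono a) hk).le

theorem AA_PM (hI : ∀ a : I, (Iio a).Countable) (hIu : ¬ (univ : Set I).Countable)
    {x e : I → ℕ → ℕ} (hx : ¬ IsMeagre (range x)) (hmono : ∀ a, StrictMono (e a))
    (he : ∀ a b, b < a → LEs (e b) (e a)) (hxe : ∀ a n, x a n ≤ e a n) (g : I → I) {z : I → S}
    (hz : PMσ (range z)) : PMσ (AA e z g) := by
  classical
  intro P hP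
  set B := TopologicalSpace.countableBasis (S × S) with hBdef
  have hB : TopologicalSpace.IsTopologicalBasis B :=
    TopologicalSpace.isBasis_countableBasis (S × S)
  have hBo : ∀ V ∈ B, IsOpen V := fun V hV => TopologicalSpace.isOpen_of_mem_countableBasis hV
  have : Countable B := TopologicalSpace.countable_countableBasis (S × S)
  have : Countable Q := Q_countable
  -- points outside `Q × S`
  have hpt : ∀ i : ℕ × B, ∃ h : ℕ → ℕ, (¬ (P i.1 ∩ i.2 ⊆ Prod.fst ⁻¹' Q)) →
      ∃ p ∈ P i.1 ∩ (i.2 : Set (S × S)), ∀ k, k < cnt p.1 (h k) := by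
    intro i
    by_cases hi : P i.1 ∩ i.2 ⊆ Prod.fst ⁻¹' Q
    · exact ⟨fun _ => 0, fun h => absurd hi h⟩
    · rw [not_subset] at hi
      obtain ⟨p, hp, hpQ⟩ := hi
      have h1 : ∀ k, ∃ n, k < cnt p.1 n := cnt_unbounded hpQ
      choose h hh using h1
      exact ⟨h, fun _ => ⟨p, hp, hh⟩⟩
  choose hfun hpt using hpt
  obtain ⟨h, _, hh, _⟩ := exists_dom (countable_range hfun) (fun _ => 0)
  obtain ⟨b, hb⟩ := exists_not_LEs hI hIu hx he hxe h
  have hb' : ∀ i, ¬ LEs (e b) (hfun i) := fun i hi => hb (hi.trans (hh _ ⟨i, rfl⟩))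
  -- traces on the fibres over `Q`
  let P' : ℕ × B × Q → Set S := fun i =>
    if P i.1 ∩ i.2.1 ⊆ range (Prod.mk (i.2.2 : S)) then
      closure (Prod.mk (i.2.2 : S) ⁻¹' (P i.1 ∩ i.2.1)) else ∅
  have hinj : ∀ q : S, Function.Injective (Prod.mk q : S → S × S) := fun q =>
    Prod.mk_right_injective q
  have hcont : ∀ q : S, Continuous (Prod.mk q : S → S × S) := fun q => Continuous.prodMk_right q
  have hP' : ∀ i, Perfect (P' i) := by
    intro i
    simp only [P']
    split_ifs with h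
    · exact trace_perfect (hcont _) (hinj _) (hP i.1) (hBo _ i.2.1.2) h
    · exact ⟨isClosed_empty, by intro x hx; exact absurd hx (notMem_empty x)⟩
  obtain ⟨H1, ⟨C, hC, hCeq⟩, hzH, hH1⟩ := pm_countable hz P' hP'
  let D : ℕ × ℕ → Set (S × S) := fun i => RRp (e b) i.1 ×ˢ C i.2
  have hD : ∀ i, IsClosed (D i) := fun i => (RRp_closed _ _).prod (hC _)
  have hc : ((fun a => (yy (e a), z (g a))) '' Iio b).Countable := (hI b).image _
  refine ⟨(⋃ i, D i) ∪ (fun a => (yy (e a), z (g a))) '' Iio b,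
    (IsFsig.iUnion fun i => IsFsig.of_closed (hD i)).union (IsFsig.of_countable hc), ?_, ?_⟩
  · rintro _ ⟨a, rfl⟩
    rcases lt_or_ge a b with hab | hab
    · exact Or.inr ⟨a, hab, rfl⟩
    · left
      have h1 : yy (e a) ∈ RR (e b) := by
        apply yy_mem_RR (hmono a)
        rcases hab.lt_or_eq with h3 | h3
        · exact he a b h3
        · rw [h3]; exact Eventually.of_forall fun _ => le_rfl
      have h2 : z (g a) ∈ ⋃ n, C n := by
        rw [← hCeq]
        exact hzH ⟨g a, rfl⟩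
      obtain ⟨m, hm⟩ := mem_iUnion.1 h1
      obtain ⟨n, hn⟩ := mem_iUnion.1 h2
      exact mem_iUnion.2 ⟨(m, n), hm, hn⟩
  · intro n
    rw [preimage_union]
    refine IsMeagre.union ?_ (meagre_countable (hP n) hc)
    apply meagre_of_pieces (P n) D hD hB
    rintro ⟨m, j⟩ V hV hne hsub
    by_cases hQ : P n ∩ V ⊆ Prod.fst ⁻¹' Q
    · -- Baire category in `P n`
      have : CompactSpace (P n) := isCompact_iff_compactSpace.1 (hP n).closed.isCompact
      let O : Set (P n) := {p | (p : S × S) ∈ V}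
      have hO : IsOpen O := (hBo V hV).preimage continuous_subtype_val
      have hOne : O.Nonempty := by
        obtain ⟨p, hp1, hp2⟩ := hne
        exact ⟨⟨p, hp1⟩, hp2⟩
      have h1 : ¬ IsMeagre (⋃ q : Q, O ∩ {p : P n | (p : S × S).1 = q}) := by
        intro h2
        apply not_isMeagre_of_isOpen hO hOne
        refine h2.mono ?_
        intro p hp
        have h3 : (p : S × S).1 ∈ Q := hQ ⟨p.2, hp⟩
        exact mem_iUnion.2 ⟨⟨_, h3⟩, hp, rfl⟩
      obtain ⟨q, hq⟩ : ∃ q : Q, ¬ IsNowhereDense (O ∩ {p : P n | (p : S × S).1 = q}) := by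
        by_contra hne'
        push Not at hne'
        exact h1 (isMeagre_iUnion fun q => (hne' q).isMeagre)
      rw [IsNowhereDense, ← ne_eq, ← nonempty_iff_ne_empty] at hq
      set E := interior (closure (O ∩ {p : P n | (p : S × S).1 = q})) with hE
      have hEO : (E ∩ O).Nonempty := by
        obtain ⟨p, hp⟩ := hq
        have h4 : p ∈ closure (O ∩ {p : P n | (p : S × S).1 = q}) := interior_subset hp
        obtain ⟨p', hp'1, hp'2, _⟩ := mem_closure_iff.1 h4 E isOpen_interior hp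
        exact ⟨p', hp'1, hp'2⟩
      have hEq : ∀ p ∈ E, (p : S × S).1 = q := by
        intro p hp
        have h5 : IsClosed {p : P n | (p : S × S).1 = q} :=
          isClosed_eq (continuous_fst.comp continuous_subtype_val) continuous_const
        exact closure_minimal inter_subset_right h5 (interior_subset hp)
      obtain ⟨p, hp⟩ := hEO
      obtain ⟨U, hU, hUE⟩ := isOpen_induced_iff.1 (isOpen_interior.inter hO : IsOpen (E ∩ O))
      have hpU : (p : S × S) ∈ U := by
        have : p ∈ Subtype.val ⁻¹' U := by rw [hUE]; exact hp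
        exact this
      obtain ⟨V', hV', hpV', hV'U⟩ := hB.exists_subset_of_mem_open hpU hU
      have hsub' : ∀ p' ∈ P n ∩ V', p'.1 = q ∧ p' ∈ V := by
        rintro p' ⟨hp'1, hp'2⟩
        have h6 : (⟨p', hp'1⟩ : P n) ∈ Subtype.val ⁻¹' U := hV'U hp'2
        rw [hUE] at h6
        exact ⟨hEq _ h6.1, h6.2⟩
      have hrange : P n ∩ V' ⊆ range (Prod.mk (q : S)) := by
        rintro ⟨s, t⟩ hst
        have h7 : s = q := (hsub' _ hst).1
        exact ⟨t, by rw [h7]⟩
      have h8 := hH1 (n, ⟨V', hV'⟩, q)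
      have h9 : P' (n, ⟨V', hV'⟩, q) = closure (Prod.mk (q : S) ⁻¹' (P n ∩ V')) := if_pos hrange
      rw [h9] at h8
      apply trace_not_subset (hcont _) (hinj _) (hP n).closed (hBo V' hV') hrange
        ⟨p, p.2, hpV'⟩ h8
      rintro ⟨s, t⟩ hst
      have h10 := hsub' _ hst
      have h11 : (s, t) ∈ D (m, j) := hsub ⟨hst.1, h10.2⟩
      have h12 : s = q := h10.1
      refine ⟨t, ?_, by rw [h12]⟩
      rw [hCeq]
      exact mem_iUnion.2 ⟨j, h11.2⟩
    · obtain ⟨p, hp, hpk⟩ := hpt (n, ⟨V, hV⟩) hQ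
      have h1 := hsub hp
      exact not_mem_RR hpk (hb' _) (mem_iUnion.2 ⟨m, h1.1⟩)

end Pool.Agent.Helper26.PN
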