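import Pool.Agent.Helper26.PN.Main

/-!
# The equality `PN_σ = PM_σ ∩ UN` fails under CH (and whenever `non(M) = ℵ₁`)

If the equality holds in a single nonempty perfect Polish space, then every set of at most `ℵ₁`
elements of the Baire space is meager, and in particular `ℵ₁ < 2^{ℵ₀}`.
-/

namespace Pool.Agent.Helper26.PN.NotCH

open MeasureTheory Set Topology Pool.Agent.Helper26.PN

universe u

theorem exists_index : ∃ (I : Type) (_ : LinearOrder I) (_ : WellFoundedLT I),
    Cardinal.mk I = Cardinal.aleph 1 ∧ ∀ a : I, (Iio a).Countable := by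
  refine ⟨(Cardinal.aleph 1).ord.ToType, inferInstance, inferInstance, by simp, fun a => ?_⟩
  have h1 : Cardinal.mk (Iio a) < Cardinal.aleph 1 := by
    simpa using Cardinal.mk_Iio_lt a
  have h2 : Cardinal.mk (Iio a) < Order.succ Cardinal.aleph0 := by
    refine lt_of_lt_of_eq h1 ?_
    exact Cardinal.succ_aleph0.symm
  exact Cardinal.mk_le_aleph0_iff.1 (Order.lt_succ_iff.1 h2)

/-- The counterexample in the square of the Cantor space. -/
theorem exists_counterexample {X₀ : Set (ℕ → ℕ)} (hc : Cardinal.mk X₀ ≤ Cardinal.aleph 1)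
    (hX₀ : ¬ IsMeagre X₀) : ∃ A : Set (S × S), PMσ A ∧ UN A ∧ ¬ PNσ A := by
  obtain ⟨I, _, _, hcard, hI⟩ := exists_index
  have hIu : ¬ (univ : Set I).Countable := by
    intro h
    have h1 : Countable I := countable_univ_iff.1 h
    have h2 := Cardinal.mk_le_aleph0_iff.2 h1
    rw [hcard] at h2
    exact absurd h2 (not_le.2 (by
      rw [← Cardinal.succ_aleph0]
      exact Order.lt_succ _))
  -- enumeration of `X₀`
  obtain ⟨x, hx⟩ : ∃ x : I → ℕ → ℕ, range x = X₀ := by
    have hne : X₀.Nonempty := nonempty_of_not_isMeagre hX₀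
    have h1 : Cardinal.mk X₀ ≤ Cardinal.mk I := by rw [hcard]; exact hc
    obtain ⟨j⟩ := h1
    have : Nonempty X₀ := hne.to_subtype
    refine ⟨fun a => (Function.invFun j a : X₀), ?_⟩
    ext y
    constructor
    · rintro ⟨a, rfl⟩
      exact (Function.invFun j a).2
    · intro hy
      refine ⟨j ⟨y, hy⟩, ?_⟩
      change ((Function.invFun j (j ⟨y, hy⟩) : X₀) : ℕ → ℕ) = y
      rw [Function.leftInverse_invFun j.injective]
  rw [← hx] at hX₀
  obtain ⟨e, hmono, he, hxe⟩ := exists_scale hI x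
  -- a map with uncountable fibres
  obtain ⟨g, hg⟩ : ∃ g : I → I, ∀ a, ¬ (g ⁻¹' {a}).Countable := by
    have h1 : Cardinal.mk I = Cardinal.mk (I × I) := by
      rw [Cardinal.mk_prod, Cardinal.lift_id, hcard,
        Cardinal.mul_eq_self (Cardinal.aleph0_le_aleph 1)]
    obtain ⟨φ⟩ := Cardinal.eq.1 h1
    refine ⟨fun a => (φ a).1, fun a h => hIu ?_⟩
    have h2 : (univ : Set I) ⊆ (fun b => (φ b).2) '' ((fun a => (φ a).1) ⁻¹' {a}) := by
      intro b _
      refine ⟨φ.symm (a, b), ?_, ?_⟩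
      · simp
      · simp
    exact (h.image _).mono h2
  obtain ⟨lam, hlam1, hlam2, hlam⟩ := exists_lam
  obtain ⟨z, hz1, hz2⟩ := exists_Z lam hlam hI hX₀
  exact ⟨AA e z g, AA_PM hI hIu hX₀ hmono he hxe g hz2,
    AA_UN hI hIu hX₀ hmono he hxe g z, AA_not_PN hI hX₀ hmono he hxe hg lam hz1⟩

/-- **Negative answer to Q1.**  If `PN_σ = PM_σ ∩ UN` holds in one nonempty perfect Polish space
`X`, then every set of at most `ℵ₁` elements of the Baire space is meager, and `ℵ₁ < 2^{ℵ₀}`. -/
theorem equality_implies (X : Type u) [TopologicalSpace X] [PolishSpace X] [PerfectSpace X] [Nonempty X]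
    [MeasurableSpace X] [BorelSpace X] (h : ∀ A : Set X, PNσ A ↔ (PMσ A ∧ UN A)) :
    (∀ Y : Set (ℕ → ℕ), Cardinal.mk Y ≤ Cardinal.aleph 1 → IsMeagre Y) ∧
      (Cardinal.aleph 1 : Cardinal.{0}) < Cardinal.continuum := by
  have main : ∀ Y : Set (ℕ → ℕ), Cardinal.mk Y ≤ Cardinal.aleph 1 → IsMeagre Y := by
    intro Y hY
    by_contra hne
    obtain ⟨A, hA1, hA2, hA3⟩ := exists_counterexample hY hne
    -- a copy of the square of the Cantor space in `X`
    obtain ⟨f, hf, hinj⟩ : ∃ f : S × S → X, Continuous f ∧ Function.Injective f := by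
      let := TopologicalSpace.upgradeIsCompletelyMetrizable X
      obtain ⟨f₀, _, hf₀, hinj₀⟩ := (PerfectSpace.univ_perfect (α := X)).exists_nat_bool_injection
        univ_nonempty
      have e1 : (S × S) ≃ₜ (ℕ ⊕ ℕ → Bool) := Homeomorph.sumArrowHomeomorphProdArrow.symm
      have e2 : (ℕ ⊕ ℕ → Bool) ≃ₜ S :=
        Homeomorph.piCongrLeft (Y := fun _ : ℕ => Bool) Equiv.natSumNatEquivNat
      exact ⟨f₀ ∘ (e1.trans e2), hf₀.comp (e1.trans e2).continuous,
        hinj₀.comp (e1.trans e2).injective⟩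
    have hpol : PolishSpace (S × S) := {}
    have hemb : MeasurableEmbedding f := hf.measurableEmbedding hinj
    apply hA3
    apply transfer_PN hf hinj hemb
    rw [h]
    exact ⟨transfer_PM hf hinj hA1, transfer_UN hf hinj hemb hA2⟩
  refine ⟨main, ?_⟩
  by_contra hle
  push Not at hle
  have h1 : Cardinal.mk (univ : Set (ℕ → ℕ)) ≤ Cardinal.aleph 1 := by
    rw [Cardinal.mk_univ]
    refine le_trans (le_of_eq ?_) hle
    simp
  exact not_isMeagre_of_isOpen isOpen_univ univ_nonempty (main _ h1)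

end Pool.Agent.Helper26.PN.NotCH
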