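import Pool.Agent.Helper26.PN.Trace

/-!
A scale-like sequence obtained from a nonmeager set of size at most `ℵ₁`.
-/

set_option linter.unusedSectionVars false

namespace Pool.Agent.Helper26.PN

open MeasureTheory Set Topology Filter ENNReal

/-- eventual domination -/
def LEs (f g : ℕ → ℕ) : Prop := ∀ᶠ n in atTop, f n ≤ g n

theorem LEs.trans {f g h : ℕ → ℕ} (h1 : LEs f g) (h2 : LEs g h) : LEs f h := by
  filter_upwards [h1, h2] with n a b
  exact a.trans b

theorem exists_dom {G : Set (ℕ → ℕ)} (hG : G.Countable) (x : ℕ → ℕ) :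
    ∃ g : ℕ → ℕ, StrictMono g ∧ (∀ f ∈ G, LEs f g) ∧ ∀ n, x n ≤ g n := by
  obtain ⟨φ, hφ⟩ : ∃ φ : ℕ → (ℕ → ℕ), G ⊆ range φ := by
    rcases G.eq_empty_or_nonempty with h0 | h0
    · exact ⟨fun _ => x, by rw [h0]; exact empty_subset _⟩
    · obtain ⟨φ, hφ⟩ := hG.exists_eq_range h0
      exact ⟨φ, hφ.le⟩
  refine ⟨fun n => ∑ i ∈ Finset.range (n + 1), (1 + x i + ∑ k ∈ Finset.range (i + 1), φ k i),
    ?_, ?_, ?_⟩
  · apply strictMono_nat_of_lt_succ
    intro n
    rw [Finset.sum_range_succ _ (n + 1)]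
    omega
  · intro f hf
    obtain ⟨k, rfl⟩ := hφ hf
    rw [LEs, eventually_atTop]
    refine ⟨k, fun n hn => ?_⟩
    rw [Finset.sum_range_succ]
    have h1 : φ k n ≤ ∑ k ∈ Finset.range (n + 1), φ k n :=
      Finset.single_le_sum (f := fun k => φ k n) (fun _ _ => Nat.zero_le _)
        (Finset.mem_range.2 (by omega))
    omega
  · intro n
    dsimp only
    rw [Finset.sum_range_succ]
    omega

variable {I : Type} [LinearOrder I] [WellFoundedLT I]

theorem exists_scale (hI : ∀ a : I, (Iio a).Countable) (x : I → ℕ → ℕ) :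
    ∃ e : I → ℕ → ℕ, (∀ a, StrictMono (e a)) ∧ (∀ a b, b < a → LEs (e b) (e a)) ∧
      ∀ a n, x a n ≤ e a n := by
  have hc : ∀ (a : I) (ih : ∀ b : I, b < a → (ℕ → ℕ)), (range fun b : Iio a => ih b.1 b.2).Countable := by
    intro a ih
    have : Countable (Iio a) := hI a
    exact countable_range _
  let F : ∀ a : I, (∀ b : I, b < a → (ℕ → ℕ)) → (ℕ → ℕ) := fun a ih => (exists_dom (hc a ih) (x a)).choose
  have hF : ∀ a ih, StrictMono (F a ih) ∧ (∀ f ∈ range fun b : Iio a => ih b.1 b.2, LEs f (F a ih))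
      ∧ ∀ n, x a n ≤ F a ih n := fun a ih => (exists_dom (hc a ih) (x a)).choose_spec
  let e : I → (ℕ → ℕ) := (wellFounded_lt (α := I)).fix F
  have he : ∀ a, e a = F a (fun b _ => e b) := fun a => WellFounded.fix_eq _ F a
  refine ⟨e, fun a => ?_, fun a b hb => ?_, fun a n => ?_⟩
  · rw [he]; exact (hF a (fun b _ => e b)).1
  · rw [he a]; exact (hF a (fun b _ => e b)).2.1 (e b) ⟨⟨b, hb⟩, rfl⟩
  · rw [he]; exact (hF a (fun b _ => e b)).2.2 n

theorem exists_ge_of_not_countable (hI : ∀ a : I, (Iio a).Countable) {J : Set I}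
    (hJ : ¬ J.Countable) (b : I) : ∃ a ∈ J, b ≤ a := by
  by_contra hne
  push Not at hne
  exact hJ ((hI b).mono hne)

theorem unbounded_scale (hI : ∀ a : I, (Iio a).Countable) {x e : I → ℕ → ℕ}
    (hx : ¬ IsMeagre (range x)) (he : ∀ a b, b < a → LEs (e b) (e a))
    (hxe : ∀ a n, x a n ≤ e a n) {J : Set I} (h : ℕ → ℕ) (hJ : ∀ a ∈ J, LEs (e a) h) :
    J.Countable := by
  by_contra hJc
  apply hx
  apply (isMeagre_bounded h).mono
  rintro _ ⟨b, rfl⟩
  obtain ⟨a, ha, hba⟩ := exists_ge_of_not_countable hI hJc b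
  have h1 : LEs (e b) (e a) := by
    rcases hba.lt_or_eq with h2 | h2
    · exact he a b h2
    · rw [h2]; exact Eventually.of_forall fun _ => le_rfl
  have h3 : LEs (x b) (e b) := Eventually.of_forall (hxe b)
  exact (h3.trans h1).trans (hJ a ha)

end Pool.Agent.Helper26.PN
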