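import Pool.Agent.Helper26.PN.Coding

/-!
The trace lemma: relatively open pieces of perfect sets seen through a continuous injection.
-/

set_option linter.unusedSectionVars false

namespace Pool.Agent.Helper26.PN

open MeasureTheory Set Topology Filter ENNReal

variable {K X : Type*} [TopologicalSpace K] [CompactSpace K] [T2Space K] [TopologicalSpace X]
  [T2Space X]

theorem trace_perfect {f : K → X} (hf : Continuous f) (hinj : Function.Injective f) {P V : Set X}
    (hP : Perfect P) (hV : IsOpen V) (hsub : P ∩ V ⊆ range f) :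
    Perfect (closure (f ⁻¹' (P ∩ V))) := by
  apply Preperfect.perfect_closure
  rw [preperfect_iff_nhds]
  intro t ht U hU
  obtain ⟨U', hU'U, hU', htU'⟩ := mem_nhds_iff.1 hU
  have h1 : IsClosed (f '' U'ᶜ) := (hU'.isClosed_compl.isCompact.image hf).isClosed
  have h2 : f t ∉ f '' U'ᶜ := by
    rintro ⟨s, hs, hst⟩
    exact hs (hinj hst ▸ htU')
  have h3 : V ∩ (f '' U'ᶜ)ᶜ ∈ 𝓝 (f t) := (hV.inter h1.isOpen_compl).mem_nhds ⟨ht.2, h2⟩
  obtain ⟨p, ⟨⟨hpV, hpU⟩, hpP⟩, hne⟩ := (preperfect_iff_nhds.1 hP.acc) (f t) ht.1 _ h3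
  obtain ⟨s, rfl⟩ := hsub ⟨hpP, hpV⟩
  refine ⟨s, ⟨hU'U ?_, hpP, hpV⟩, fun h => hne (by rw [h])⟩
  by_contra hs
  exact hpU ⟨s, hs, rfl⟩

theorem trace_not_subset {f : K → X} (hf : Continuous f) (hinj : Function.Injective f)
    {P V : Set X} (hP : IsClosed P) (hV : IsOpen V) (hsub : P ∩ V ⊆ range f)
    (hne : (P ∩ V).Nonempty) {H : Set K}
    (hH : IsMeagre ((↑) ⁻¹' H : Set (closure (f ⁻¹' (P ∩ V))))) : ¬ (P ∩ V ⊆ f '' H) := by
  intro hPV
  set C := closure (f ⁻¹' (P ∩ V)) with hC
  have hCcl : IsClosed C := isClosed_closure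
  have : CompactSpace C := isCompact_iff_compactSpace.1 hCcl.isCompact
  have hCP : C ⊆ f ⁻¹' P := closure_minimal (preimage_mono inter_subset_left) (hP.preimage hf)
  let O : Set C := {c | f c ∈ V}
  have hO : IsOpen O := hV.preimage (hf.comp continuous_subtype_val)
  have hOne : O.Nonempty := by
    obtain ⟨p, hp⟩ := hne
    obtain ⟨t, rfl⟩ := hsub hp
    exact ⟨⟨t, subset_closure hp⟩, hp.2⟩
  apply not_isMeagre_of_isOpen hO hOne
  refine hH.mono ?_
  rintro ⟨c, hc⟩ hcO
  obtain ⟨s, hs, hsc⟩ := hPV ⟨hCP hc, hcO⟩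
  have : s = c := hinj hsc
  change c ∈ H
  rwa [← this]

/-- `PM_σ`-type covers for countably many perfect sets. -/
theorem pm_countable {Y : Type*} [TopologicalSpace Y] {A : Set Y} (hA : PMσ A) {ι : Type*}
    [Countable ι] (P : ι → Set Y) (hP : ∀ i, Perfect (P i)) :
    ∃ F : Set Y, IsFsig F ∧ A ⊆ F ∧ ∀ i, IsMeagre ((↑) ⁻¹' F : Set (P i)) := by
  rcases isEmpty_or_nonempty ι with h0 | h0
  · obtain ⟨F, h1, h2, _⟩ := hA (fun _ => ∅) (fun _ => ⟨isClosed_empty, by
      intro x hx; exact absurd hx (notMem_empty x)⟩)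
    exact ⟨F, h1, h2, fun i => isEmptyElim i⟩
  · obtain ⟨φ, hφ⟩ := exists_surjective_nat ι
    obtain ⟨F, h1, h2, h3⟩ := hA (fun n => P (φ n)) (fun n => hP _)
    refine ⟨F, h1, h2, fun i => ?_⟩
    obtain ⟨n, rfl⟩ := hφ i
    exact h3 n

/-- A union of closed sets is meager in `P` as soon as none of them contains a nonempty relatively
open piece of `P`. -/
theorem meagre_of_pieces {Y ι : Type*} [TopologicalSpace Y] [Countable ι] (P : Set Y)
    (C : ι → Set Y) (hC : ∀ i, IsClosed (C i)) {B : Set (Set Y)}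
    (hB : TopologicalSpace.IsTopologicalBasis B)
    (h : ∀ i, ∀ V ∈ B, (P ∩ V).Nonempty → ¬ (P ∩ V ⊆ C i)) :
    IsMeagre ((↑) ⁻¹' (⋃ i, C i) : Set P) := by
  rw [preimage_iUnion]
  apply isMeagre_iUnion
  intro i
  apply IsNowhereDense.isMeagre
  have hcl : IsClosed ((↑) ⁻¹' (C i) : Set P) := (hC i).preimage continuous_subtype_val
  rw [hcl.isNowhereDense_iff, interior_eq_empty_iff_dense_compl, dense_iff_inter_open]
  rintro U hU ⟨p, hp⟩
  obtain ⟨U', hU', rfl⟩ := isOpen_induced_iff.1 hU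
  obtain ⟨V, hV, hpV, hVU⟩ := hB.exists_subset_of_mem_open (a := (p : Y)) hp hU'
  have h1 := h i V hV ⟨p, p.2, hpV⟩
  rw [not_subset] at h1
  obtain ⟨q, ⟨hqP, hqV⟩, hqC⟩ := h1
  exact ⟨⟨q, hqP⟩, hVU hqV, hqC⟩

/-- Countable sets are meager in perfect sets. -/
theorem meagre_countable {Y : Type*} [TopologicalSpace Y] [T1Space Y] {P A : Set Y}
    (hP : Perfect P) (hA : A.Countable) : IsMeagre ((↑) ⁻¹' A : Set P) := by
  have h1 : A = ⋃ a : A, {(a : Y)} := by ext x; simp
  rw [h1]
  have : Countable A := hA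
  apply meagre_of_pieces P (fun a : A => {(a : Y)}) (fun _ => isClosed_singleton)
    TopologicalSpace.isTopologicalBasis_opens
  rintro a V hV ⟨p, hp⟩ hsub
  obtain ⟨q, ⟨hqV, hqP⟩, hne⟩ := (preperfect_iff_nhds.1 hP.acc) p hp.1 V (hV.mem_nhds hp.2)
  apply hne
  have h2 : q = a := hsub ⟨hqP, hqV⟩
  have h3 : p = a := hsub hp
  rw [h2, h3]

/-- Transfer of the three properties along a continuous injection of a compact space. -/
theorem transfer_PM [SecondCountableTopology X] {f : K → X} (hf : Continuous f)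
    (hinj : Function.Injective f) {A : Set K} (hA : PMσ A) : PMσ (f '' A) := by
  classical
  intro P hP
  set B := TopologicalSpace.countableBasis X with hBdef
  have hB : TopologicalSpace.IsTopologicalBasis B := TopologicalSpace.isBasis_countableBasis X
  have : Countable B := TopologicalSpace.countable_countableBasis X
  let P' : ℕ × B → Set K := fun q =>
    if P q.1 ∩ q.2 ⊆ range f then closure (f ⁻¹' (P q.1 ∩ q.2)) else ∅
  have hP' : ∀ q, Perfect (P' q) := by
    intro q
    simp only [P']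
    split_ifs with h
    · exact trace_perfect hf hinj (hP q.1) (TopologicalSpace.isOpen_of_mem_countableBasis q.2.2) h
    · exact ⟨isClosed_empty, by intro x hx; exact absurd hx (notMem_empty x)⟩
  obtain ⟨F, ⟨C, hC, rfl⟩, hAF, hF⟩ := pm_countable hA P' hP'
  refine ⟨f '' ⋃ n, C n, ⟨fun n => f '' C n, fun n => ((hC n).isCompact.image hf).isClosed, ?_⟩,
    image_mono hAF, ?_⟩
  · rw [image_iUnion]
  · intro n
    rw [image_iUnion]
    apply meagre_of_pieces (P n) (fun m => f '' C m)
      (fun m => ((hC m).isCompact.image hf).isClosed) hB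
    intro m V hV hne hsub
    have h1 : P n ∩ V ⊆ range f := hsub.trans (image_subset_range _ _)
    have h2 := hF (n, ⟨V, hV⟩)
    have h3 : P' (n, ⟨V, hV⟩) = closure (f ⁻¹' (P n ∩ V)) := if_pos h1
    rw [h3] at h2
    exact trace_not_subset hf hinj (hP n).closed (TopologicalSpace.isOpen_of_mem_countableBasis hV)
      h1 hne h2 (hsub.trans (image_mono (subset_iUnion C m)))

section measure

variable [MeasurableSpace K] [BorelSpace K] [MeasurableSpace X] [BorelSpace X]

theorem transfer_UN [SecondCountableTopology K] [SecondCountableTopology X] {f : K → X}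
    (hf : Continuous f) (hinj : Function.Injective f)
    (hemb : MeasurableEmbedding f) {A : Set K} (hA : UN A) : UN (f '' A) := by
  intro μ hμ hμ'
  have h1 := hA (μ.comap f) ?_ ?_
  · rwa [hemb.comap_apply] at h1
  · exact ⟨by rw [hemb.comap_apply]; exact measure_lt_top μ _⟩
  · constructor
    intro x
    rw [hemb.comap_apply, image_singleton]
    exact measure_singleton _

theorem transfer_PN {f : K → X} (hf : Continuous f) (hinj : Function.Injective f)
    (hemb : MeasurableEmbedding f) {A : Set K} (hA : PNσ (f '' A)) : PNσ A := by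
  intro μ hμ hμ'
  obtain ⟨F, hF, hAF, hF0⟩ := hA (μ.map f) inferInstance ⟨fun x => by
    rw [hemb.map_apply]
    apply Set.Subsingleton.measure_zero
    intro a ha b hb
    exact hinj ((show f a = x from ha).trans (show f b = x from hb).symm)⟩
  refine ⟨f ⁻¹' F, hF.preimage hf, ?_, ?_⟩
  · intro a ha
    exact hAF ⟨a, ha, rfl⟩
  · rwa [hemb.map_apply] at hF0

end measure

end Pool.Agent.Helper26.PN
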